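import Mathlib

set_option autoImplicit false

open scoped commutatorElement

namespace Pool.Agent.Results.MP_417677_al.Integrable

open CoxeterMatrix

abbrev W : Type := H₃.Group

def s (i : Fin 3) : W := H₃.toCoxeterSystem.simple i

def π (l : List (Fin 3)) : W := H₃.toCoxeterSystem.wordProd l

def hd : List (Fin 3) → List (Fin 3)
  | 0 :: 0 :: t => t
  | 1 :: 1 :: t => t
  | 2 :: 2 :: t => t
  | 0 :: 2 :: t => 2 :: 0 :: t
  | 2 :: 0 :: t => 0 :: 2 :: t
  | 0 :: 1 :: 0 :: t => 1 :: 0 :: 1 :: t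
  | 1 :: 0 :: 1 :: t => 0 :: 1 :: 0 :: t
  | 1 :: 2 :: 1 :: 2 :: 1 :: t => 2 :: 1 :: 2 :: 1 :: 2 :: t
  | 2 :: 1 :: 2 :: 1 :: 2 :: t => 1 :: 2 :: 1 :: 2 :: 1 :: t
  | l => l

def mv (l : List (Fin 3)) (p : ℕ) : List (Fin 3) := l.take p ++ hd (l.drop p)

theorem π_append (l l' : List (Fin 3)) : π (l ++ l') = π l * π l' :=
  H₃.toCoxeterSystem.wordProd_append l l'

theorem π_hd (l : List (Fin 3)) : π (hd l) = π l := by
  have h0 : ∀ i t, π t = π (i :: i :: t) := fun i t => by
    simp only [π, CoxeterSystem.wordProd_cons, CoxeterSystem.simple_mul_simple_cancel_left]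
  have h1 : ∀ t, π (2 :: 0 :: t) = π (0 :: 2 :: t) := fun t =>
    (π_append [2, 0] t).trans ((congrArg (· * π t)
      (H₃.toCoxeterSystem.wordProd_braidWord_eq 2 0)).trans (π_append [0, 2] t).symm)
  have h2 : ∀ t, π (1 :: 0 :: 1 :: t) = π (0 :: 1 :: 0 :: t) := fun t =>
    (π_append [1, 0, 1] t).trans ((congrArg (· * π t)
      (H₃.toCoxeterSystem.wordProd_braidWord_eq 0 1)).trans (π_append [0, 1, 0] t).symm)
  have h3 : ∀ t, π (2 :: 1 :: 2 :: 1 :: 2 :: t) = π (1 :: 2 :: 1 :: 2 :: 1 :: t) := fun t =>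
    (π_append [2, 1, 2, 1, 2] t).trans ((congrArg (· * π t)
      (H₃.toCoxeterSystem.wordProd_braidWord_eq 1 2)).trans (π_append [1, 2, 1, 2, 1] t).symm)
  unfold hd
  split
  exacts [h0 _ _, h0 _ _, h0 _ _, h1 _, (h1 _).symm, h2 _, (h2 _).symm, h3 _, (h3 _).symm, rfl]

theorem π_eq_one (l : List (Fin 3)) (ps : List ℕ) (h : ps.foldl mv l = []) : π l = 1 := by
  induction ps generalizing l with
  | nil =>
    rw [show l = [] from h]
    rfl
  | cons p ps ih =>
    rw [← ih (mv l p) h, mv, π_append, π_hd, ← π_append, List.take_append_drop]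

def zl : List (Fin 3) := [0, 1, 2, 0, 1, 2, 0, 1, 2, 0, 1, 2, 0, 1, 2]

def z : W := π zl

theorem ss (i : Fin 3) : s i * s i = 1 := H₃.toCoxeterSystem.simple_mul_simple_self i

theorem zz : z * z = 1 := (π_append zl zl).symm.trans (π_eq_one _
  [2, 0, 8, 6, 2, 6, 7, 11, 13, 14, 10, 11, 15, 17, 18, 5, 7, 8, 10, 9, 12, 10, 12, 16, 15, 17, 18,
    4, 5, 9, 8, 9, 1, 2, 4, 3, 4, 6, 5, 6, 0, 4, 3, 2, 1, 0] (by decide))

theorem zs (i : Fin 3) : Commute z (s i) := by
  have : π (zl ++ [i] ++ zl.reverse ++ [i]) = 1 := by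
    fin_cases i
    · exact π_eq_one _ [30, 14, 15, 12, 14, 13, 8, 9, 13, 12, 13, 6, 8, 9, 11, 7, 8, 4, 8, 7, 2, 3,
        4, 5, 0, 2, 1, 0] (by decide)
    · exact π_eq_one _ [27, 28, 30, 11, 12, 16, 15, 16, 9, 11, 12, 14, 10, 11, 7, 11, 10, 5, 6, 7,
        8, 3, 5, 4, 3, 2, 1, 0] (by decide)
    · exact π_eq_one _ [14, 11, 9, 11, 15, 16, 14, 16, 5, 3, 5, 9, 10, 8, 10, 11, 7, 8, 12, 11, 12,
        10, 12, 4, 5, 7, 6, 7, 1, 5, 4, 3, 2, 0, 1, 0] (by decide)
  rw [← commutatorElement_eq_one_iff_commute, ← this]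
  simp only [commutatorElement_def, π, z, s, CoxeterSystem.wordProd_append,
    CoxeterSystem.wordProd_reverse, CoxeterSystem.wordProd_singleton, CoxeterSystem.inv_simple]

theorem zw (w : W) : Commute z w :=
  H₃.toCoxeterSystem.simple_induction w zs (Commute.one_right z) fun _ _ => Commute.mul_right

theorem liftable : H₃.IsLiftable fun i => ((DihedralGroup.r 2, s i * z) : DihedralGroup 4 × W) := by
  intro i j
  refine Prod.ext ?_ ?_
  · have : (DihedralGroup.r 2 * DihedralGroup.r 2 : DihedralGroup 4) = 1 := by decide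
    simp only [Prod.pow_fst, Prod.fst_mul, this, one_pow, Prod.fst_one]
  · have : s i * z * (s j * z) = s i * s j := by
      rw [mul_assoc, ← mul_assoc z, (zw _).eq, mul_assoc, zz, mul_one]
    simp only [Prod.pow_snd, Prod.snd_mul, this, Prod.snd_one]
    exact H₃.toCoxeterSystem.simple_mul_simple_pow i j

noncomputable def f : W →* DihedralGroup 4 × W := H₃.toCoxeterSystem.lift ⟨_, liftable⟩

theorem f_s (i : Fin 3) : f (s i) = (DihedralGroup.r 2, s i * z) :=
  H₃.toCoxeterSystem.lift_apply_simple liftable i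

theorem f_cases (w : W) : f w = (1, w) ∨ f w = (DihedralGroup.r 2, w * z) := by
  refine H₃.toCoxeterSystem.simple_induction (p := fun w => f w = (1, w) ∨
    f w = (DihedralGroup.r 2, w * z)) w (fun i => Or.inr (f_s i)) (Or.inl (map_one f)) ?_
  rintro v w (h | h) (h' | h') <;> rw [map_mul, h, h', Prod.mk_mul_mk]
  · exact Or.inl (by rw [one_mul])
  · exact Or.inr (by rw [one_mul, mul_assoc])
  · exact Or.inr (by rw [mul_one, mul_assoc, (zw w).eq, mul_assoc])
  · refine Or.inl (Prod.ext (by change DihedralGroup.r 2 * DihedralGroup.r 2 = 1; decide) ?_)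
    change v * z * (w * z) = v * w
    rw [mul_assoc, ← mul_assoc z, (zw _).eq, mul_assoc, zz, mul_one]

theorem f_z : f z = (DihedralGroup.r 2, 1) := by
  refine (f_cases z).elim (fun h => absurd (congrArg Prod.fst h) ?_) fun h => by rw [h, zz]
  have : ∀ i, (f (H₃.toCoxeterSystem.simple i)).1 = DihedralGroup.r 2 := fun i =>
    congrArg Prod.fst (f_s i)
  simp only [z, π, zl, CoxeterSystem.wordProd_cons, map_mul, Prod.fst_mul, this,
    CoxeterSystem.wordProd_nil, map_one, Prod.fst_one]
  decide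

theorem sz_mem (i : Fin 3) : s i * z ∈ commutator W := by
  rw [← Abelianization.ker_of, MonoidHom.mem_ker]
  have h0 : ∀ i, Abelianization.of (s i) * Abelianization.of (s i) = 1 := fun i => by
    rw [← map_mul, ss, map_one]
  have h1 : ∀ a b : Abelianization W, a * a = 1 → b * b = 1 → ∀ k, (a * b) ^ (2 * k + 1) = 1 →
      a = b := by
    intro a b ha hb k h
    rw [pow_succ, pow_mul, sq, mul_mul_mul_comm, ha, hb, one_mul, one_pow, one_mul] at h
    rw [eq_inv_of_mul_eq_one_left h, inv_eq_of_mul_eq_one_left hb]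
  have h2 : Abelianization.of (s 0) = Abelianization.of (s 1) := h1 _ _ (h0 _) (h0 _) 1 (by
    rw [← map_mul, ← map_pow]
    exact (congrArg _ (H₃.toCoxeterSystem.simple_mul_simple_pow 0 1)).trans (map_one _))
  have h3 : Abelianization.of (s 2) = Abelianization.of (s 1) := h1 _ _ (h0 _) (h0 _) 2 (by
    rw [← map_mul, ← map_pow]
    exact (congrArg _ (H₃.toCoxeterSystem.simple_mul_simple_pow 2 1)).trans (map_one _))
  have h4 : ∀ j, Abelianization.of (H₃.toCoxeterSystem.simple j) = Abelianization.of (s 1) := by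
    intro j
    fin_cases j
    exacts [h2, rfl, h3]
  simp only [z, π, zl, s, CoxeterSystem.wordProd_cons, map_mul, CoxeterSystem.wordProd_nil,
    mul_one]
  simp only [h4, ← mul_assoc, h0, one_mul]

/-- An integrable Coxeter group of finite rank with connected diagram, other than `C₂`. -/
theorem result : ∃ (B : Type) (_ : Finite B) (M : CoxeterMatrix B),
    (SimpleGraph.fromRel fun i j => 3 ≤ M i j ∨ M i j = 0).Connected ∧
    IsEmpty (M.Group ≃* Multiplicative (ZMod 2)) ∧
    ∃ (H : Type) (_ : Group H), Nonempty (commutator H ≃* M.Group) := by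
  refine ⟨Fin 3, inferInstance, H₃, ?_, ⟨fun e => ?_⟩, ?_⟩
  · rw [SimpleGraph.connected_iff_exists_forall_reachable]
    refine ⟨1, fun i => ?_⟩
    fin_cases i
    · exact SimpleGraph.Adj.reachable (by decide)
    · rfl
    · exact SimpleGraph.Adj.reachable (by decide)
  · have hl : H₃.IsLiftable
        (![Equiv.swap 0 1 * Equiv.swap 2 3, Equiv.swap 1 4 * Equiv.swap 2 3,
          Equiv.swap 0 2 * Equiv.swap 1 3] : Fin 3 → Equiv.Perm (Fin 5)) := by
      unfold IsLiftable
      decide
    have h1 : s 0 * s 1 = s 1 * s 0 := e.injective (by rw [map_mul, map_mul, mul_comm])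
    have h2 := congrArg (H₃.toCoxeterSystem.lift ⟨_, hl⟩) h1
    simp only [s, map_mul, CoxeterSystem.lift_apply_simple] at h2
    exact absurd h2 (by decide)
  · let K : Subgroup (DihedralGroup 4 × W) :=
      f.range.comap ((MonoidHom.inr _ _).comp (MonoidHom.snd _ _))
    have hK : f.range ≤ K := by
      rintro _ ⟨w, rfl⟩
      rcases f_cases w with h | h
      · exact ⟨w, by rw [h]; rfl⟩
      · refine ⟨w * z, ?_⟩
        rw [map_mul, h, f_z]
        exact Prod.ext (by change DihedralGroup.r 2 * DihedralGroup.r 2 = 1; decide) (mul_one _)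
    have hz : f z ∈ ⁅K, K⁆ := by
      have : f z = ⁅((DihedralGroup.r 1, 1) : DihedralGroup 4 × W), (DihedralGroup.sr 0, 1)⁆ := by
        rw [f_z]
        exact Prod.ext (show (DihedralGroup.r 2 : DihedralGroup 4) =
          ⁅(.r 1 : DihedralGroup 4), .sr 0⁆ by decide) (by simp [commutatorElement_def])
      rw [this]
      exact Subgroup.commutator_mem_commutator (one_mem f.range) (one_mem f.range)
    have h : ⁅K, K⁆ = f.range := by
      apply le_antisymm
      · refine Subgroup.commutator_le.2 fun g hg h hh => ?_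
        have h1 : ⁅g, h⁆ = (⁅g.1, h.1⁆, 1) * ⁅((1, g.2) : DihedralGroup 4 × W), (1, h.2)⁆ :=
          Prod.ext (by simp [commutatorElement_def]) (by simp [commutatorElement_def])
        rw [h1]
        refine mul_mem ?_ (mul_mem (mul_mem (mul_mem hg hh) (inv_mem hg)) (inv_mem hh))
        have : ∀ g h : DihedralGroup 4, ⁅g, h⁆ = 1 ∨ ⁅g, h⁆ = DihedralGroup.r 2 := by decide
        rcases this g.1 h.1 with e | e <;> rw [e]
        exacts [one_mem _, ⟨z, f_z⟩]
      · rintro _ ⟨w, rfl⟩
        refine H₃.toCoxeterSystem.simple_induction (p := fun w => f w ∈ ⁅K, K⁆) w (fun i => ?_)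
          (by simp) fun v w hv hw => map_mul f v w ▸ mul_mem hv hw
        change f (s i) ∈ _
        rw [show s i = s i * z * z by rw [mul_assoc, zz, mul_one], map_mul]
        refine mul_mem ?_ hz
        have := Subgroup.mem_map_of_mem f (sz_mem i)
        rw [commutator_def, Subgroup.map_commutator, ← MonoidHom.range_eq_map] at this
        exact Subgroup.commutator_mono hK hK this
    have hf : Function.Injective f := (injective_iff_map_eq_one f).2 fun w hw => by
      rcases f_cases w with h | h <;> rw [hw] at h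
      · exact (congrArg Prod.snd h).symm
      · exact absurd (congrArg Prod.fst h) (show ¬ (1 : DihedralGroup 4) = .r 2 by decide)
    refine ⟨K, inferInstance, ⟨((commutator K).equivMapOfInjective K.subtype
      K.subtype_injective).trans ((MulEquiv.subgroupCongr ?_).trans (MonoidHom.ofInjective hf).symm)⟩⟩
    rw [Subgroup.map_subtype_commutator, h]

end Pool.Agent.Results.MP_417677_al.Integrable
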